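import Pool.Agent.U69.SP.Sigma

/-!
# The additivity number of `Split(Ω, Λ)` is at most the cofinality of the ultrafilter number

`SplitOmegaLarge X` says that the set of reals `X` satisfies `Split(Ω, Λ)`, `addSplit` is the
additivity number of the family of these sets, exactly as in the problem, and `ultrafilterNumber`
is the ultrafilter number `𝔲`, the least size of a base of a nonprincipal ultrafilter on `ℕ`; see
`Pool.Agent.U69.SP.Defs`.
-/

set_option autoImplicit false

namespace Pool.Agent.Results.MP_312f56_gt.AtMostCofinalityOfU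

open Cardinal Set Pool.Agent.U69.SP

/-- **`ℵ₁ ≤ add(Split(Ω, Λ)) ≤ cf(𝔲) ≤ 𝔲 ≤ 𝔠` in ZFC.** Moreover `𝔲` is the least size of a set
of reals that does not satisfy `Split(Ω, Λ)`. The new part is the upper bound `cf(𝔲)`, the cofinality
of a cardinal characteristic which is consistently smaller than the continuum. -/
theorem result :
    (ℵ₁ ≤ addSplit ∧ addSplit ≤ ultrafilterNumber.ord.cof ∧
      ultrafilterNumber.ord.cof ≤ ultrafilterNumber ∧ ultrafilterNumber ≤ 𝔠) ∧
    (∀ X : Set ℝ, #X < ultrafilterNumber → SplitOmegaLarge X) ∧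
    (∃ X : Set ℝ, #X = ultrafilterNumber ∧ ¬ SplitOmegaLarge X) := by
  refine ⟨⟨aleph_one_le_addSplit, addSplit_le, Ordinal.cof_ord_le _, ?_⟩,
    fun X hX => split_of_card_lt hX, ?_⟩
  · obtain ⟨B, hB, -⟩ := exists_base
    rw [← hB]
    refine (mk_set_le B).trans ?_
    simp
  · obtain ⟨e, he⟩ := exists_cantor
    obtain ⟨B, hB, hbase⟩ := exists_base
    have hinj : Function.Injective (fun b : Set ℕ => e (chi b)) :=
      he.injective.comp chi_injective
    exact ⟨(fun b => e (chi b)) '' B, by rw [mk_image_eq hinj, hB], not_split_of_base he hbase⟩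

end Pool.Agent.Results.MP_312f56_gt.AtMostCofinalityOfU
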